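import Mathlib

namespace Pool.Agent.Results.MP_e96fbd_an.SameConstant

open Complex

/-- The character `χ_x(t) = exp (2 π i x t / k)` of `ℤ_k`. -/
noncomputable def chi (k : ℕ) (x t : ZMod k) : ℂ :=
  Complex.exp (2 * Real.pi * I * (x.val : ℂ) * (t.val : ℂ) / k)

/-- The Sidon constant of `E ⊆ ℤ_k`. -/
noncomputable def sidon (k : ℕ) (E : Finset (ZMod k)) : ℝ :=
  sSup {s | ∃ a : ZMod k → ℂ, (∀ t, ‖∑ x ∈ E, a x * chi k x t‖ ≤ 1) ∧ s = ∑ x ∈ E, ‖a x‖}

lemma rot (g c : ℂ) (h : ∀ j : ℕ, j < 4 → ‖g + c * I ^ j‖ ≤ 1) : ‖g‖ + ‖c‖ / √2 ≤ 1 := by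
  have sq : ∀ z : ℂ, ‖z‖ ≤ 1 → z.re ^ 2 + z.im ^ 2 ≤ 1 := fun z hz => by
    have := Complex.sq_norm z
    rw [Complex.normSq_apply] at this
    nlinarith [norm_nonneg z]
  have h0 := sq _ (h 0 (by norm_num))
  have h1 := sq _ (h 1 (by norm_num))
  have h2 := sq _ (h 2 (by norm_num))
  have h3 := sq _ (h 3 (by norm_num))
  simp only [pow_succ, pow_zero, one_mul, mul_one, add_re, add_im, mul_re, mul_im, I_re, I_im] at h0 h1 h2 h3
  have eg := Complex.sq_norm g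
  have ec := Complex.sq_norm c
  rw [Complex.normSq_apply] at eg ec
  have s2 : √2 ^ 2 = 2 := Real.sq_sqrt (by norm_num)
  have s0 : 0 < √2 := by positivity
  have G := norm_nonneg g
  have C := norm_nonneg c
  set u := g.re * c.re + g.im * c.im with hu
  set v := g.im * c.re - g.re * c.im with hv
  set R := 1 - ‖g‖ ^ 2 - ‖c‖ ^ 2 with hR
  have a1 : |2 * u| ≤ R := abs_le.mpr ⟨by nlinarith, by nlinarith⟩
  have a2 : |2 * v| ≤ R := abs_le.mpr ⟨by nlinarith, by nlinarith⟩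
  have R0 : 0 ≤ R := (abs_nonneg _).trans a1
  have e : u ^ 2 + v ^ 2 = (‖g‖ * ‖c‖) ^ 2 := by rw [mul_pow, eg, ec, hu, hv]; ring
  have b1 := sq_le_sq' (abs_le.mp a1).1 (abs_le.mp a1).2
  have b2 := sq_le_sq' (abs_le.mp a2).1 (abs_le.mp a2).2
  have b3 : √2 * (‖g‖ * ‖c‖) ≤ R := by
    refine abs_le_of_sq_le_sq' ?_ R0 |>.2
    rw [mul_pow, s2]; nlinarith
  refine (abs_le_of_sq_le_sq' ?_ zero_le_one).2
  have : ‖c‖ / √2 = √2 * ‖c‖ / 2 := by field_simp; rw [s2]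
  rw [this]
  nlinarith

lemma par (a b : ℂ) : ‖a‖ + ‖b‖ ≤ √2 * max ‖a + b‖ ‖a - b‖ := by
  have p := parallelogram_law_with_norm ℝ a b
  have s2 : √2 ^ 2 = 2 := Real.sq_sqrt (by norm_num)
  have m1 := le_max_left ‖a + b‖ ‖a - b‖
  have m2 := le_max_right ‖a + b‖ ‖a - b‖
  set m := max ‖a + b‖ ‖a - b‖
  have m0 : 0 ≤ m := (norm_nonneg _).trans m1
  refine (abs_le_of_sq_le_sq' ?_ (by positivity)).2
  rw [mul_pow, s2]
  nlinarith [sq_nonneg (‖a‖ - ‖b‖), norm_nonneg (a + b), norm_nonneg (a - b)]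

lemma chi_pow (x t : ZMod 16) :
    chi 16 x t = Complex.exp (2 * Real.pi * I / 16) ^ (x.val * t.val) := by
  rw [← Complex.exp_nat_mul, chi]; congr 1; push_cast; ring

lemma main (x : ZMod 16) (h0 : x ≠ 0) (h8 : x ≠ 8) (τ : ℕ → ℕ → ZMod 16)
    (hτ : ∀ s < 2, ∀ j < 4, (τ s j).val % 2 = s ∧ (x.val * (τ s j).val) % 16 = x.val * s + 4 * j) :
    sidon 16 {0, 8, x} = √2 := by
  set w := Complex.exp (2 * Real.pi * I / 16) with hw
  have w4 : w ^ 4 = I := by
    rw [hw, ← Complex.exp_nat_mul]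
    refine Eq.trans ?_ Complex.exp_pi_div_two_mul_I
    congr 1; push_cast; ring
  have w8 : w ^ 8 = -1 := by rw [show 8 = 4 * 2 from rfl, pow_mul, w4, I_sq]
  have w16 : w ^ 16 = 1 := by rw [show 16 = 8 * 2 from rfl, pow_mul, w8]; norm_num
  have wn : ‖w‖ = 1 := norm_eq_one_of_pow_eq_one w16 (by norm_num)
  have n1 : (0 : ZMod 16) ∉ ({8, x} : Finset (ZMod 16)) := by
    simp only [Finset.mem_insert, Finset.mem_singleton, not_or]
    exact ⟨by decide, h0.symm⟩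
  have n2 : (8 : ZMod 16) ≠ x := h8.symm
  have val : ∀ (a : ZMod 16 → ℂ) t, ∑ y ∈ ({0, 8, x} : Finset (ZMod 16)), a y * chi 16 y t =
      a 0 + a 8 * (-1) ^ t.val + a x * w ^ (x.val * t.val) := by
    intro a t
    rw [Finset.sum_insert n1, Finset.sum_pair n2, chi_pow, chi_pow, chi_pow, ← hw,
      show (8 : ZMod 16).val = 8 from rfl, pow_mul w 8, w8, ZMod.val_zero]
    simp [add_assoc]
  have s2 : √2 ^ 2 = 2 := Real.sq_sqrt (by norm_num)
  have s0 : 0 < √2 := by positivity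
  refine IsGreatest.csSup_eq ⟨⟨fun y => if y = 0 then (√2 : ℂ)⁻¹ else if y = 8 then
    (√2 : ℂ)⁻¹ * I else 0, fun t => ?_, ?_⟩, ?_⟩
  · rw [val]
    simp only [if_true, if_neg h0, if_neg h8, if_neg (show (8 : ZMod 16) ≠ 0 by decide), zero_mul,
      add_zero]
    rw [mul_assoc, ← mul_one_add, norm_mul, norm_inv, Complex.norm_real, Real.norm_eq_abs,
      abs_of_pos s0, inv_mul_le_iff₀ s0, mul_one]
    refine Real.le_sqrt_of_sq_le (le_of_eq ?_)
    rcases neg_one_pow_eq_or ℂ t.val with e | e <;>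
      rw [e, Complex.sq_norm, Complex.normSq_apply] <;> norm_num
  · rw [Finset.sum_insert n1, Finset.sum_pair n2]
    simp only [if_true, if_neg h0, if_neg h8, if_neg (show (8 : ZMod 16) ≠ 0 by decide)]
    simp only [norm_mul, norm_inv, Complex.norm_real, Real.norm_eq_abs, abs_of_pos s0, norm_I,
      norm_zero]
    field_simp
    linarith
  · rintro _ ⟨a, ha, rfl⟩
    rw [Finset.sum_insert n1, Finset.sum_pair n2]
    have key : ∀ s < 2, ‖a 0 + a 8 * (-1) ^ s‖ + ‖a x‖ / √2 ≤ 1 := by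
      intro s hs
      have := rot (a 0 + a 8 * (-1) ^ s) (a x * w ^ (x.val * s)) fun j hj => by
        have h := ha (τ s j)
        rw [val, pow_eq_pow_mod _ w16, (hτ s hs j hj).2, pow_add, pow_mul w 4, w4,
          neg_one_pow_eq_pow_mod_two, (hτ s hs j hj).1, ← mul_assoc] at h
        exact h
      rwa [norm_mul, norm_pow, wn, one_pow, mul_one] at this
    have k0 := key 0 (by norm_num)
    have k1 := key 1 (by norm_num)
    simp only [pow_zero, mul_one, pow_one, mul_neg, ← sub_eq_add_neg] at k0 k1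
    have p := par (a 0) (a 8)
    have m : max ‖a 0 + a 8‖ ‖a 0 - a 8‖ ≤ 1 - ‖a x‖ / √2 := max_le (by linarith) (by linarith)
    have := mul_le_mul_of_nonneg_left m s0.le
    rw [mul_sub, mul_div_cancel₀ _ s0.ne'] at this
    linarith

theorem result : ∃ E F : Finset (ZMod 16), E.card = 3 ∧ F.card = 3 ∧
    sidon 16 E = √2 ∧ sidon 16 F = √2 ∧
    (∀ (u : (ZMod 16)ˣ) (c : ZMod 16), F ≠ E.image fun x => (u : ZMod 16) * x + c) ∧
    sidon 16 E ≠ √(E.card : ℝ) ∧ sidon 16 F ≠ √(F.card : ℝ) := by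
  have a := main 1 (by decide) (by decide) (fun s j => ((s + 4 * j : ℕ) : ZMod 16)) (by decide)
  have b := main 2 (by decide) (by decide) (fun s j => ((s + 2 * j : ℕ) : ZMod 16)) (by decide)
  have c1 : ({0, 8, 1} : Finset (ZMod 16)).card = 3 := by decide
  have c2 : ({0, 8, 2} : Finset (ZMod 16)).card = 3 := by decide
  have n : √2 ≠ √((3 : ℕ) : ℝ) := fun e => by
    have := Real.sqrt_inj (by norm_num) (by norm_num) |>.mp e
    norm_num at this
  refine ⟨{0, 8, 1}, {0, 8, 2}, c1, c2, a, b, fun u c => ?_, by rwa [a, c1], by rwa [b, c2]⟩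
  have : ∀ u v c : ZMod 16, u * v = 1 →
      ({0, 8, 2} : Finset (ZMod 16)) ≠ Finset.image (fun x => u * x + c) {0, 8, 1} := by
    decide +kernel
  exact this u (u⁻¹ : (ZMod 16)ˣ) c u.mul_inv

end Pool.Agent.Results.MP_e96fbd_an.SameConstant
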